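import Pool.Agent.Helper95.PN.Stmts

/-!
# Row CP (MP_56acfd_mp): bounds away from the origin, uniform in `s`
-/

set_option autoImplicit false

namespace Pool.Agent.Helper95.PW

open MeasureTheory Filter Topology

/-- region away from the origin -/
def cpU : Set (R3 × ℝ) := {p | 0 < p.1 0 ^ 2 + p.1 1 ^ 2 + p.1 2 ^ 2}

theorem cp_open : IsOpen cpU := by
  unfold cpU
  exact isOpen_lt continuous_const (by fun_prop)

/-- jointly smooth family -/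
def cpJ (g : ℝ → R3 → ℝ) : Prop :=
  ContDiffOn ℝ (⊤ : ℕ∞) (fun p : R3 × ℝ => g p.2 p.1) cpU

theorem cp_pd {g : ℝ → R3 → ℝ} (hg : cpJ g) (i : Fin 3) : cpJ (fun s => pd i (g s)) := by
  have h1 : ContDiffOn ℝ (⊤ : ℕ∞) (fun p : R3 × ℝ =>
      fderiv ℝ (fun p : R3 × ℝ => g p.2 p.1) p (Pi.single i 1, 0)) cpU := by
    have h2 : ContDiffOn ℝ (⊤ : ℕ∞) (fderiv ℝ (fun p : R3 × ℝ => g p.2 p.1)) cpU :=
      hg.fderiv_of_isOpen cp_open (by simp)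
    exact h2.clm_apply contDiffOn_const
  refine h1.congr fun p hp => ?_
  have h3 : DifferentiableAt ℝ (fun p : R3 × ℝ => g p.2 p.1) p :=
    (hg.contDiffAt (cp_open.mem_nhds hp)).differentiableAt (by simp)
  have h4 : HasFDerivAt (fun y : R3 => (y, p.2)) (ContinuousLinearMap.inl ℝ R3 ℝ) p.1 :=
    hasFDerivAt_prodMk_left p.1 p.2
  have h5 : HasFDerivAt (fun y : R3 => g p.2 y)
      ((fderiv ℝ (fun p : R3 × ℝ => g p.2 p.1) p).comp (ContinuousLinearMap.inl ℝ R3 ℝ)) p.1 :=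
    HasFDerivAt.comp (g := fun p : R3 × ℝ => g p.2 p.1) p.1 h3.hasFDerivAt h4
  change fderiv ℝ (fun y : R3 => g p.2 y) p.1 (Pi.single i 1) = _
  rw [h5.fderiv]
  simp

theorem cp_lap {g : ℝ → R3 → ℝ} (hg : cpJ g) : cpJ (fun s => lap (g s)) := by
  unfold cpJ lap
  exact ContDiffOn.sum fun i _ => cp_pd (cp_pd hg i) i

theorem cp_mg (d : ℝ) : cpJ (mg d) := by
  unfold cpJ mg
  refine ContDiffOn.mul ?_ ?_
  · refine ContDiffOn.sqrt ?_ ?_
    · exact ContDiff.contDiffOn (by fun_prop)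
    · intro p hp
      have h1 : 0 < p.1 0 ^ 2 + p.1 1 ^ 2 + p.1 2 ^ 2 := hp
      have h2 := sq_nonneg p.2
      exact ne_of_gt (by linarith)
  · refine ContDiff.contDiffOn ?_
    exact Real.smoothTransition.contDiff.comp (by fun_prop)

theorem cp_zero {d : ℝ} {g : R3 → ℝ} (hg : ∀ y, d < nr y → g y = 0) (i : Fin 3) :
    ∀ y, d < nr y → pd i g y = 0 := by
  intro y hy
  have ho : IsOpen {y : R3 | d < nr y} := by
    unfold nr
    exact isOpen_lt continuous_const (by fun_prop)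
  have h1 : g =ᶠ[𝓝 y] fun _ => (0 : ℝ) := by
    filter_upwards [ho.mem_nhds hy] with z hz
    exact hg z hz
  unfold pd
  rw [h1.fderiv_eq]
  simp

theorem cp_zero_lap {d : ℝ} {g : R3 → ℝ} (hg : ∀ y, d < nr y → g y = 0) :
    ∀ y, d < nr y → lap g y = 0 := by
  intro y hy
  unfold lap
  exact Finset.sum_eq_zero fun i _ => cp_zero (cp_zero hg i) i y hy

theorem cp_zero_mg {d : ℝ} (hd : 0 < d) (s : ℝ) : ∀ y, d < nr y → mg d s y = 0 := by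
  intro y hy
  unfold nr at hy
  have h1 : d ^ 2 < y 0 ^ 2 + y 1 ^ 2 + y 2 ^ 2 := by
    have h2 : 0 ≤ y 0 ^ 2 + y 1 ^ 2 + y 2 ^ 2 := by positivity
    have h3 := Real.sq_sqrt h2
    nlinarith [Real.sqrt_nonneg (y 0 ^ 2 + y 1 ^ 2 + y 2 ^ 2)]
  unfold mg
  rw [Real.smoothTransition.zero_of_nonpos, mul_zero]
  have h4 : 0 < d ^ 2 := by positivity
  have h5 : 1 ≤ (y 0 ^ 2 + y 1 ^ 2 + y 2 ^ 2) / d ^ 2 := by
    rw [le_div_iff₀ h4]; linarith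
  have h6 : 2 * (y 0 ^ 2 + y 1 ^ 2 + y 2 ^ 2) / d ^ 2 =
      2 * ((y 0 ^ 2 + y 1 ^ 2 + y 2 ^ 2) / d ^ 2) := by ring
  linarith

theorem cp_bound {d : ℝ} (hd : 0 < d) {g : ℝ → R3 → ℝ} (hg : cpJ g)
    (h0 : ∀ s y, d < nr y → g s y = 0) :
    ∃ A : ℝ, 0 ≤ A ∧ ∀ (s : ℝ) (y : R3), 0 < s → s ≤ d → d / 2 ≤ nr y → |g s y| ≤ A := by
  set K : Set (R3 × ℝ) := (Metric.closedBall (0 : R3) d ×ˢ Set.Icc (0 : ℝ) d) ∩
    {p | d ^ 2 / 4 ≤ p.1 0 ^ 2 + p.1 1 ^ 2 + p.1 2 ^ 2} with hK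
  have hKc : IsCompact K := by
    refine IsCompact.inter_right ((isCompact_closedBall _ _).prod isCompact_Icc) ?_
    exact isClosed_le continuous_const (by fun_prop)
  have hKU : K ⊆ cpU := by
    rintro p ⟨_, hp⟩
    have h1 : d ^ 2 / 4 ≤ p.1 0 ^ 2 + p.1 1 ^ 2 + p.1 2 ^ 2 := hp
    have h2 : 0 < d ^ 2 / 4 := by positivity
    exact lt_of_lt_of_le h2 h1
  obtain ⟨A, hA⟩ := hKc.exists_bound_of_continuousOn (hg.continuousOn.mono hKU)
  refine ⟨|A|, abs_nonneg A, fun s y hs hsd hy => ?_⟩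
  by_cases h : d < nr y
  · rw [h0 s y h, abs_zero]
    exact abs_nonneg A
  · push Not at h
    have h2 : 0 ≤ y 0 ^ 2 + y 1 ^ 2 + y 2 ^ 2 := by positivity
    have h3 : nr y ^ 2 = y 0 ^ 2 + y 1 ^ 2 + y 2 ^ 2 := by
      unfold nr
      exact Real.sq_sqrt h2
    have h4 : 0 ≤ nr y := Real.sqrt_nonneg _
    have h5 : nr y ^ 2 ≤ d ^ 2 := by nlinarith
    have hm : (y, s) ∈ K := by
      refine ⟨⟨?_, ⟨hs.le, hsd⟩⟩, ?_⟩
      · rw [mem_closedBall_zero_iff, pi_norm_le_iff_of_nonneg hd.le]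
        intro i
        rw [Real.norm_eq_abs]
        refine abs_le_of_sq_le_sq ?_ hd.le
        fin_cases i
        · change y 0 ^ 2 ≤ d ^ 2
          nlinarith [sq_nonneg (y 1), sq_nonneg (y 2)]
        · change y 1 ^ 2 ≤ d ^ 2
          nlinarith [sq_nonneg (y 0), sq_nonneg (y 2)]
        · change y 2 ^ 2 ≤ d ^ 2
          nlinarith [sq_nonneg (y 0), sq_nonneg (y 1)]
      · change d ^ 2 / 4 ≤ y 0 ^ 2 + y 1 ^ 2 + y 2 ^ 2
        rw [← h3]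
        nlinarith
    have h6 := hA (y, s) hm
    rw [Real.norm_eq_abs] at h6
    exact h6.trans (le_abs_self A)

/-- row CP -/
theorem st_CP : ST_CP := by
  intro d hd
  have b1 : ∀ i : Fin 3, ∃ A : ℝ, 0 ≤ A ∧ ∀ (s : ℝ) (y : R3), 0 < s → s ≤ d → d / 2 ≤ nr y →
      |pd i (mg d s) y| ≤ A := fun i =>
    cp_bound hd (cp_pd (cp_mg d) i) fun s => cp_zero (cp_zero_mg hd s) i
  have b2 : ∀ i l : Fin 3, ∃ A : ℝ, 0 ≤ A ∧ ∀ (s : ℝ) (y : R3), 0 < s → s ≤ d → d / 2 ≤ nr y →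
      |pd i (pd l (mg d s)) y| ≤ A := fun i l =>
    cp_bound hd (cp_pd (cp_pd (cp_mg d) l) i) fun s => cp_zero (cp_zero (cp_zero_mg hd s) l) i
  obtain ⟨A3, p3, h3⟩ := cp_bound hd (cp_lap (cp_lap (cp_mg d)))
    fun s => cp_zero_lap (cp_zero_lap (cp_zero_mg hd s))
  choose A1 p1 h1 using b1
  choose A2 p2 h2 using b2
  have q1 : 0 ≤ ∑ i, A1 i := Finset.sum_nonneg fun i _ => p1 i
  have q2 : ∀ i, 0 ≤ ∑ l, A2 i l := fun i => Finset.sum_nonneg fun l _ => p2 i l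
  have q3 : 0 ≤ ∑ i, ∑ l, A2 i l := Finset.sum_nonneg fun i _ => q2 i
  refine ⟨1 + ∑ i, A1 i + ∑ i, ∑ l, A2 i l + A3, by positivity, fun s y hs hsd hy => ?_⟩
  refine ⟨fun i => ?_, fun i l => ?_, ?_⟩
  · have e1 := h1 i s y hs hsd hy
    have e2 : A1 i ≤ ∑ i, A1 i :=
      Finset.single_le_sum (f := A1) (fun j _ => p1 j) (Finset.mem_univ i)
    linarith
  · have e1 := h2 i l s y hs hsd hy
    have e2 : A2 i l ≤ ∑ l, A2 i l :=
      Finset.single_le_sum (f := A2 i) (fun j _ => p2 i j) (Finset.mem_univ l)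
    have e3 : ∑ l, A2 i l ≤ ∑ i, ∑ l, A2 i l :=
      Finset.single_le_sum (f := fun i => ∑ l, A2 i l) (fun j _ => q2 j) (Finset.mem_univ i)
    linarith
  · have e1 := h3 s y hs hsd hy
    linarith

end Pool.Agent.Helper95.PW
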